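import Mathlib
set_option autoImplicit false

/-!
# Power sums of the primitive roots of unity
-/

namespace Pool.Agent.Q158.Cyc
open Finset

/-- the sum of the `k`-th powers of the primitive `n`-th roots of unity -/
noncomputable def c (n k : ℕ) : ℂ := ∑ ζ ∈ primitiveRoots n ℂ, ζ ^ k

theorem sum_nthRoots (n k : ℕ) (hn : 0 < n) :
    ∑ ζ ∈ Polynomial.nthRootsFinset n (1 : ℂ), ζ ^ k = if n ∣ k then (n : ℂ) else 0 := by
  classical
  obtain ⟨ω, hω⟩ : ∃ ω : ℂ, IsPrimitiveRoot ω n := ⟨_, Complex.isPrimitiveRoot_exp n hn.ne'⟩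
  have hmem : ∀ z : ℂ, z ∈ Polynomial.nthRootsFinset n (1 : ℂ) ↔ z ^ n = 1 := fun z =>
    Polynomial.mem_nthRootsFinset hn 1
  split_ifs with h
  · obtain ⟨m, rfl⟩ := h
    have h1 : ∀ ζ ∈ Polynomial.nthRootsFinset n (1 : ℂ), ζ ^ (n * m) = 1 := by
      intro ζ hζ
      rw [pow_mul, (hmem ζ).1 hζ, one_pow]
    rw [Finset.sum_congr rfl h1, Finset.sum_const, hω.card_nthRootsFinset]
    simp
  · have hω1 : ω ^ k ≠ 1 := by
      intro h1
      exact h (hω.dvd_of_pow_eq_one k h1)
    have hω0 : ω ≠ 0 := hω.ne_zero hn.ne'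
    set S := ∑ ζ ∈ Polynomial.nthRootsFinset n (1 : ℂ), ζ ^ k with hS
    have h2 : ω ^ k * S = S := by
      rw [hS, Finset.mul_sum]
      apply Finset.sum_bij (fun ζ _ => ω * ζ)
      · intro ζ hζ
        rw [hmem] at hζ ⊢
        rw [mul_pow, hω.pow_eq_one, hζ, one_mul]
      · intro a _ b _ hab
        exact mul_left_cancel₀ hω0 hab
      · intro b hb
        refine ⟨ω⁻¹ * b, ?_, ?_⟩
        · rw [hmem] at hb ⊢
          rw [mul_pow, inv_pow, hω.pow_eq_one, hb]; simp
        · field_simp
      · intro ζ _
        rw [mul_pow]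
    have h3 : (ω ^ k - 1) * S = 0 := by rw [sub_mul, h2]; ring
    rcases mul_eq_zero.1 h3 with h4 | h4
    · exact absurd (sub_eq_zero.1 h4) hω1
    · exact h4

theorem sum_c (n k : ℕ) (hn : 0 < n) :
    ∑ d ∈ n.divisors, c d k = if n ∣ k then (n : ℂ) else 0 := by
  classical
  rw [← sum_nthRoots n k hn, IsPrimitiveRoot.nthRoots_one_eq_biUnion_primitiveRoots,
    Finset.sum_biUnion]
  · rfl
  · intro i _ j _ hij
    exact IsPrimitiveRoot.disjoint hij

theorem sum_div_split (F : ℕ → ℂ) (n : ℕ) (hn : 0 < n) :
    ∑ d ∈ n.divisors, F d = ∑ d ∈ n.properDivisors, F d + F n := by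
  rw [← Nat.insert_self_properDivisors hn.ne', Finset.sum_insert Nat.self_notMem_properDivisors]
  ring

/-- the sum over the divisors determines a function -/
theorem inv_unique (F G : ℕ → ℂ) (h : ∀ n, 0 < n → ∑ d ∈ n.divisors, F d = ∑ d ∈ n.divisors, G d) :
    ∀ n, 0 < n → F n = G n := by
  intro n
  induction n using Nat.strong_induction_on with
  | _ n ih =>
    intro hn
    have h1 := h n hn
    rw [sum_div_split F n hn, sum_div_split G n hn] at h1
    have h2 : ∑ d ∈ n.properDivisors, F d = ∑ d ∈ n.properDivisors, G d := by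
      apply Finset.sum_congr rfl
      intro d hd
      rw [Nat.mem_properDivisors] at hd
      exact ih d hd.2 (Nat.pos_of_dvd_of_pos hd.1 hn)
    rw [h2] at h1
    exact add_left_cancel h1

theorem rec_mul (p : ℕ) (hp : p.Prime) (k : ℕ) : ∀ n, 0 < n →
    c (n * p) k + (if p ∣ n then 0 else c n k) = if p ∣ k then p * c n (k / p) else 0 := by
  classical
  apply inv_unique
  intro n hn
  -- left side
  have hL : ∑ d ∈ n.divisors, (c (d * p) k + (if p ∣ d then 0 else c d k)) =
      ∑ e ∈ (n * p).divisors, c e k := by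
    have hsplit : (n * p).divisors = n.divisors.image (fun d => d * p) ∪
        n.divisors.filter (fun d => ¬ p ∣ d) := by
      ext e
      simp only [Finset.mem_union, Finset.mem_image, Finset.mem_filter, Nat.mem_divisors]
      constructor
      · rintro ⟨h1, h2⟩
        by_cases h3 : p ∣ e
        · left
          obtain ⟨d, rfl⟩ := h3
          refine ⟨d, ⟨?_, hn.ne'⟩, by ring⟩
          rw [mul_comm n p] at h1
          exact Nat.dvd_of_mul_dvd_mul_left hp.pos h1
        · right
          refine ⟨⟨?_, hn.ne'⟩, h3⟩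
          exact (Nat.Coprime.dvd_of_dvd_mul_right
            ((Nat.Prime.coprime_iff_not_dvd hp).2 h3).symm h1)
      · rintro (⟨d, ⟨h1, _⟩, rfl⟩ | ⟨⟨h1, _⟩, _⟩)
        · exact ⟨Nat.mul_dvd_mul_right h1 p, mul_ne_zero hn.ne' hp.ne_zero⟩
        · exact ⟨h1.trans (dvd_mul_right _ _), mul_ne_zero hn.ne' hp.ne_zero⟩
    have hdisj : Disjoint (n.divisors.image (fun d => d * p))
        (n.divisors.filter (fun d => ¬ p ∣ d)) := by
      rw [Finset.disjoint_left]
      intro e h1 h2
      simp only [Finset.mem_image, Finset.mem_filter] at h1 h2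
      obtain ⟨d, _, rfl⟩ := h1
      exact h2.2 (dvd_mul_left _ _)
    rw [hsplit, Finset.sum_union hdisj, Finset.sum_image, Finset.sum_add_distrib]
    · congr 1
      rw [Finset.sum_filter]
      apply Finset.sum_congr rfl
      intro d _
      by_cases h : p ∣ d <;> simp [h]
    · intro a _ b _ hab
      exact Nat.eq_of_mul_eq_mul_right hp.pos hab
  rw [hL, sum_c _ _ (Nat.mul_pos hn hp.pos)]
  by_cases hk : p ∣ k
  · obtain ⟨m, rfl⟩ := hk
    have h1 : p * m / p = m := Nat.mul_div_cancel_left m hp.pos
    simp only [h1, dvd_mul_right, if_true]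
    rw [← Finset.mul_sum, sum_c n m hn]
    have h2 : n * p ∣ p * m ↔ n ∣ m := by
      rw [mul_comm n p]
      exact Nat.mul_dvd_mul_iff_left hp.pos
    simp only [h2]
    split_ifs
    · push_cast; ring
    · simp
  · have h2 : ¬ n * p ∣ k := fun h => hk ((dvd_mul_left p n).trans h)
    simp [h2, hk]

theorem c_mul (p : ℕ) (hp : p.Prime) (n k : ℕ) (hn : 0 < n) (hpn : ¬ p ∣ n) :
    c n (p * k) = c n k := by
  -- induction over the divisors of numbers prime to `p`
  have key : ∀ n, 0 < n → (if p ∣ n then (0 : ℂ) else c n (p * k)) =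
      (if p ∣ n then (0 : ℂ) else c n k) := by
    intro n
    induction n using Nat.strong_induction_on with
    | _ n ih =>
      intro hn
      by_cases hpn : p ∣ n
      · simp [hpn]
      · simp only [hpn, if_false]
        have h1 := sum_c n (p * k) hn
        have h2 := sum_c n k hn
        have h3 : n ∣ p * k ↔ n ∣ k := by
          constructor
          · intro h
            exact (Nat.Coprime.dvd_of_dvd_mul_left
              ((Nat.Prime.coprime_iff_not_dvd hp).2 hpn).symm h)
          · intro h; exact h.trans (dvd_mul_left _ _)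
        rw [sum_div_split _ n hn] at h1 h2
        simp only [h3] at h1
        have h4 : ∑ d ∈ n.properDivisors, c d (p * k) = ∑ d ∈ n.properDivisors, c d k := by
          apply Finset.sum_congr rfl
          intro d hd
          rw [Nat.mem_properDivisors] at hd
          have hpd : ¬ p ∣ d := fun h => hpn (h.trans hd.1)
          have := ih d hd.2 (Nat.pos_of_dvd_of_pos hd.1 hn)
          simpa only [hpd, if_false] using this
        rw [h4, ← h2] at h1
        exact add_left_cancel h1
  have := key n hn
  simpa only [hpn, if_false] using this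

theorem c_one (k : ℕ) : c 1 k = 1 := by
  simp [c]

theorem sum_bound : ∀ (n : ℕ), 0 < n → ∀ T : Finset ℕ,
    ∑ k ∈ T, 1 / (k : ℝ) ^ 2 * ‖c n k‖ ^ 2 ≤ Real.pi ^ 2 / 6 * 2 ^ n.primeFactors.card := by
  classical
  intro n
  induction n using Nat.strong_induction_on with
  | _ n ih =>
    intro hn T
    by_cases h1 : n = 1
    · subst h1
      simp only [c_one, norm_one, one_pow, mul_one, Nat.primeFactors_one, Finset.card_empty,
        pow_zero]
      have h2 := hasSum_zeta_two
      exact sum_le_hasSum T (fun k _ => by positivity) h2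
    · set p := n.minFac with hpdef
      have hp : p.Prime := Nat.minFac_prime h1
      obtain ⟨m, hm⟩ := n.minFac_dvd
      rw [← hpdef, mul_comm] at hm
      have hm0 : 0 < m := by
        rcases Nat.eq_zero_or_pos m with h | h
        · rw [h, zero_mul] at hm; omega
        · exact h
      have hmn : m < n := by
        rw [hm]
        exact lt_mul_of_one_lt_right hm0 hp.one_lt
      have ihm := ih m hmn hm0
      have hpR : (0 : ℝ) < p := by exact_mod_cast hp.pos
      -- the map `k ↦ k / p` on the multiples of `p`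
      set T1 := T.filter (fun k => p ∣ k) with hT1
      set T2 := T.filter (fun k => ¬ p ∣ k) with hT2
      have hsplit : ∀ F : ℕ → ℝ, ∑ k ∈ T, F k = ∑ k ∈ T1, F k + ∑ k ∈ T2, F k := fun F =>
        (Finset.sum_filter_add_sum_filter_not T (fun k => p ∣ k) F).symm
      have himg : ∀ F : ℕ → ℝ, ∑ k ∈ T1, F (k / p) = ∑ k ∈ T1.image (fun k => k / p), F k := by
        intro F
        rw [Finset.sum_image]
        intro a ha b hb hab
        have ha' : p ∣ a := (Finset.mem_filter.1 ha).2
        have hb' : p ∣ b := (Finset.mem_filter.1 hb).2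
        obtain ⟨a', rfl⟩ := ha'
        obtain ⟨b', rfl⟩ := hb'
        simp only [Nat.mul_div_cancel_left _ hp.pos] at hab
        rw [hab]
      have hdiv : ∀ k ∈ T1, ((k / p : ℕ) : ℝ) = k / p := by
        intro k hk
        exact Nat.cast_div (Finset.mem_filter.1 hk).2 hpR.ne'
      by_cases hpm : p ∣ m
      · have hpf : n.primeFactors = m.primeFactors := by
          rw [hm, Nat.primeFactors_mul hm0.ne' hp.ne_zero, hp.primeFactors]
          apply Finset.union_eq_left.2
          rw [Finset.singleton_subset_iff]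
          exact Nat.mem_primeFactors.2 ⟨hp, hpm, hm0.ne'⟩
        rw [hpf, hsplit]
        have h2 : ∀ k ∈ T2, 1 / (k : ℝ) ^ 2 * ‖c n k‖ ^ 2 = 0 := by
          intro k hk
          have h3 := rec_mul p hp k m hm0
          rw [if_pos hpm, if_neg (Finset.mem_filter.1 hk).2, ← hm, add_zero] at h3
          rw [h3]; simp
        have h4 : ∀ k ∈ T1, 1 / (k : ℝ) ^ 2 * ‖c n k‖ ^ 2 =
            1 / ((k / p : ℕ) : ℝ) ^ 2 * ‖c m (k / p)‖ ^ 2 := by
          intro k hk
          have h3 := rec_mul p hp k m hm0
          rw [if_pos hpm, if_pos (Finset.mem_filter.1 hk).2, ← hm, add_zero] at h3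
          rw [h3, hdiv k hk, norm_mul, Complex.norm_natCast]
          rcases Nat.eq_zero_or_pos k with h5 | h5
          · subst h5; simp
          · have : (0 : ℝ) < k := by exact_mod_cast h5
            field_simp
        rw [Finset.sum_congr rfl h2, Finset.sum_const_zero, add_zero, Finset.sum_congr rfl h4,
          himg (fun k => 1 / (k : ℝ) ^ 2 * ‖c m k‖ ^ 2)]
        exact ihm _
      · have hpf : n.primeFactors.card = m.primeFactors.card + 1 := by
          rw [hm, Nat.primeFactors_mul hm0.ne' hp.ne_zero, hp.primeFactors]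
          rw [Finset.card_union_of_disjoint]
          · simp
          · rw [Finset.disjoint_singleton_right]
            intro h
            exact hpm (Nat.dvd_of_mem_primeFactors h)
        rw [hpf, hsplit]
        have h2 : ∀ k ∈ T2, 1 / (k : ℝ) ^ 2 * ‖c n k‖ ^ 2 =
            1 / (k : ℝ) ^ 2 * ‖c m k‖ ^ 2 := by
          intro k hk
          have h3 := rec_mul p hp k m hm0
          rw [if_neg hpm, if_neg (Finset.mem_filter.1 hk).2, ← hm] at h3
          have h5 : c n k = - c m k := eq_neg_of_add_eq_zero_left h3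
          rw [h5, norm_neg]
        have h4 : ∀ k ∈ T1, 1 / (k : ℝ) ^ 2 * ‖c n k‖ ^ 2 ≤
            1 / ((k / p : ℕ) : ℝ) ^ 2 * ‖c m (k / p)‖ ^ 2 := by
          intro k hk
          have hk' := (Finset.mem_filter.1 hk).2
          have h3 := rec_mul p hp k m hm0
          rw [if_neg hpm, if_pos hk', ← hm] at h3
          have h6 : c m k = c m (k / p) := by
            have := c_mul p hp m (k / p) hm0 hpm
            rwa [Nat.mul_div_cancel' hk'] at this
          have h5 : c n k = ((p : ℂ) - 1) * c m (k / p) := by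
            rw [h6] at h3
            linear_combination h3
          have hnorm : ‖(p : ℂ) - 1‖ ≤ p := by
            have : (p : ℂ) - 1 = ((p - 1 : ℕ) : ℂ) := by
              rw [Nat.cast_sub hp.one_lt.le]; simp
            rw [this, Complex.norm_natCast]
            exact_mod_cast Nat.sub_le p 1
          rw [h5, hdiv k hk, norm_mul]
          rcases Nat.eq_zero_or_pos k with h7 | h7
          · subst h7; simp
          · have hk0 : (0 : ℝ) < k := by exact_mod_cast h7
            have h8 : 1 / ((k : ℝ) / p) ^ 2 * ‖c m (k / p)‖ ^ 2 =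
                1 / (k : ℝ) ^ 2 * (p * ‖c m (k / p)‖) ^ 2 := by
              field_simp
            rw [h8]
            gcongr
        rw [Finset.sum_congr rfl h2]
        have h5 := ihm T2
        have h6 : ∑ k ∈ T1, 1 / (k : ℝ) ^ 2 * ‖c n k‖ ^ 2 ≤
            Real.pi ^ 2 / 6 * 2 ^ m.primeFactors.card := by
          refine (Finset.sum_le_sum h4).trans ?_
          rw [himg (fun k => 1 / (k : ℝ) ^ 2 * ‖c m k‖ ^ 2)]
          exact ihm _
        have h7 : Real.pi ^ 2 / 6 * 2 ^ (m.primeFactors.card + 1) =
            Real.pi ^ 2 / 6 * 2 ^ m.primeFactors.card + Real.pi ^ 2 / 6 * 2 ^ m.primeFactors.card := by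
          rw [pow_succ]; ring
        rw [h7]
        exact add_le_add h6 h5

end Pool.Agent.Q158.Cyc
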