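import Mathlib
import Pool.Agent.H159.ZD.Main
import Pool.Agent.Q158.Cyc.Ram
set_option autoImplicit false

/-!
# The mean of `log⁺ |Φ_n|`
-/

namespace Pool.Agent.Q158.Cyc
open Polynomial Real

theorem S_eq_c (n k : ℕ) (hn : 0 < n) :
    H159.ZD.S (fun i : {x // x ∈ primitiveRoots n ℂ} => H159.ZD.ang i.1) k = c n k := by
  classical
  unfold H159.ZD.S c
  rw [← Finset.sum_coe_sort (primitiveRoots n ℂ)]
  apply Finset.sum_congr rfl
  rintro ⟨ζ, hζ⟩ _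
  have h1 : IsPrimitiveRoot ζ n := (mem_primitiveRoots hn).1 hζ
  have h2 : ‖ζ‖ = 1 := h1.norm'_eq_one hn.ne'
  have h3 : ζ = H159.ZD.dir ζ := by
    have := H159.ZD.eq_norm_mul_dir ζ
    rw [h2] at this
    simpa using this
  show Complex.exp ((2 * π * k * H159.ZD.ang ζ : ℝ) * Complex.I) = ζ ^ k
  conv_rhs => rw [h3]
  unfold H159.ZD.dir
  rw [← Complex.exp_nat_mul]
  congr 1
  push_cast
  ring

theorem B2_sum_le (n : ℕ) (hn : 0 < n) :
    π ^ 2 * ∑ i : {x // x ∈ primitiveRoots n ℂ}, ∑ j : {x // x ∈ primitiveRoots n ℂ},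
      H159.ZD.B2 |H159.ZD.ang i.1 - H159.ZD.ang j.1| ≤ π ^ 2 / 6 * 2 ^ n.primeFactors.card := by
  classical
  set x : {x // x ∈ primitiveRoots n ℂ} → ℝ := fun i => H159.ZD.ang i.1 with hx
  have hx01 : ∀ i, 0 ≤ x i ∧ x i ≤ 1 := fun i =>
    ⟨H159.ZD.ang_nonneg _, (H159.ZD.ang_lt_one _).le⟩
  have h : HasSum (fun k : ℕ => 1 / (k : ℝ) ^ 2 * ‖H159.ZD.S x k‖ ^ 2)
      (π ^ 2 * ∑ i, ∑ j, H159.ZD.B2 |x i - x j|) := by
    have e : (fun k : ℕ => 1 / (k : ℝ) ^ 2 * ‖H159.ZD.S x k‖ ^ 2) = fun k : ℕ =>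
        ∑ i, ∑ j, 1 / (k : ℝ) ^ 2 * Real.cos (2 * π * k * |x i - x j|) := by
      funext k
      rw [H159.ZD.norm_S_sq, Finset.mul_sum]
      exact Finset.sum_congr rfl fun i _ => Finset.mul_sum _ _ _
    rw [e, Finset.mul_sum]
    refine hasSum_sum fun i _ => ?_
    rw [Finset.mul_sum]
    refine hasSum_sum fun j _ => ?_
    refine H159.ZD.hasSum_cos _ (abs_nonneg _) ?_
    rw [abs_le]
    constructor <;> linarith [(hx01 i).1, (hx01 i).2, (hx01 j).1, (hx01 j).2]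
  refine hasSum_le_of_sum_le h fun T => ?_
  have h2 := sum_bound n hn T
  refine le_trans (le_of_eq ?_) h2
  apply Finset.sum_congr rfl
  intro k _
  rw [hx, S_eq_c n k hn]

theorem aeval_cyc (n : ℕ) (hn : 0 < n) (z : ℂ) :
    aeval z (cyclotomic n ℤ) = 1 * ∏ i : {x // x ∈ primitiveRoots n ℂ}, (z - i.1) := by
  classical
  have h1 : aeval z (cyclotomic n ℤ) = (cyclotomic n ℂ).eval z := by
    rw [← map_cyclotomic_int n ℂ, aeval_def, eval₂_eq_eval_map]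
    rfl
  have h2 : cyclotomic n ℂ = ∏ μ ∈ primitiveRoots n ℂ, (X - C μ) :=
    cyclotomic_eq_prod_X_sub_primitiveRoots (Complex.isPrimitiveRoot_exp n hn.ne')
  rw [h1, h2, eval_prod, one_mul, ← Finset.prod_coe_sort]
  simp

theorem posLog_cyc (n : ℕ) (hn : 0 < n) :
    circleAverage (fun z : ℂ => posLog ‖aeval z (cyclotomic n ℤ)‖) 0 1 ≤
      √(π ^ 2 / 6 * 2 ^ n.primeFactors.card) := by
  classical
  have hn1 : ∀ i : {x // x ∈ primitiveRoots n ℂ}, ‖i.1‖ = 1 := fun i =>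
    ((mem_primitiveRoots hn).1 i.2).norm'_eq_one hn.ne'
  have h1 := H159.ZD.posLog_avg_le (1 : ℂ) one_ne_zero
    (fun i : {x // x ∈ primitiveRoots n ℂ} => i.1)
    (fun i => by
      intro h
      have := hn1 i
      rw [h, norm_zero] at this
      exact zero_ne_one this)
    (by simp [hn1])
  have h2 : (fun z : ℂ => posLog ‖aeval z (cyclotomic n ℤ)‖) = (fun z : ℂ =>
      posLog ‖1 * ∏ i : {x // x ∈ primitiveRoots n ℂ}, (z - i.1)‖) := by
    funext z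
    rw [aeval_cyc n hn z]
  rw [h2]
  refine h1.trans ?_
  have h3 : Real.log ‖(1 : ℂ)‖ + ∑ i : {x // x ∈ primitiveRoots n ℂ}, posLog ‖i.1‖ = 0 := by
    simp [hn1]
  rw [h3, zero_add]
  exact Real.sqrt_le_sqrt (B2_sum_le n hn)

end Pool.Agent.Q158.Cyc
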