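import Mathlib
import Pool.Agent.Helper559.Mertens
set_option autoImplicit false

/-!
# Integers with many prime factors are rare (Hardy and Ramanujan)
-/

namespace Pool.Agent.Q158.Cyc
open Finset

theorem sum_pow_omega (u : ℝ) (hu : 0 ≤ u) (x : ℕ) :
    ∑ n ∈ Icc 1 x, (1 + u) ^ n.primeFactors.card ≤
      x * ∏ p ∈ (Icc 1 x).filter Nat.Prime, (1 + u * (1 / (p : ℝ))) := by
  classical
  set P := (Icc 1 x).filter Nat.Prime with hP
  have h1 : ∀ n ∈ Icc 1 x, (1 + u) ^ n.primeFactors.card =
      ∑ s ∈ P.powerset, if s ⊆ n.primeFactors then u ^ s.card else 0 := by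
    intro n hn
    rw [mem_Icc] at hn
    have h2 : (1 + u) ^ n.primeFactors.card = ∏ _p ∈ n.primeFactors, (1 + u) := by
      rw [Finset.prod_const]
    rw [h2, Finset.prod_one_add, ← Finset.sum_filter]
    have h3 : P.powerset.filter (fun s => s ⊆ n.primeFactors) = n.primeFactors.powerset := by
      ext s
      simp only [mem_filter, mem_powerset]
      constructor
      · exact fun h => h.2
      · intro h
        refine ⟨fun p hp => ?_, h⟩
        have := Nat.mem_primeFactors.1 (h hp)
        rw [hP, mem_filter, mem_Icc]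
        exact ⟨⟨this.1.one_lt.le, (Nat.le_of_dvd (by omega) this.2.1).trans hn.2⟩, this.1⟩
    rw [h3]
    apply Finset.sum_congr rfl
    intro s _
    rw [Finset.prod_const]
  rw [Finset.sum_congr rfl h1, Finset.sum_comm]
  have h4 : (x : ℝ) * ∏ p ∈ P, (1 + u * (1 / (p : ℝ))) =
      ∑ s ∈ P.powerset, u ^ s.card * (x / ∏ p ∈ s, (p : ℝ)) := by
    rw [Finset.prod_one_add, Finset.mul_sum]
    apply Finset.sum_congr rfl
    intro s _
    rw [Finset.prod_mul_distrib, Finset.prod_const, Finset.prod_div_distrib, Finset.prod_const_one]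
    ring
  rw [h4]
  apply Finset.sum_le_sum
  intro s hs
  rw [mem_powerset] at hs
  rw [← Finset.sum_filter, Finset.sum_const, nsmul_eq_mul, mul_comm]
  apply mul_le_mul_of_nonneg_left _ (by positivity)
  set D : ℕ := ∏ p ∈ s, p with hD
  have hDp : 0 < D := Finset.prod_pos fun p hp => (mem_filter.1 (hs hp)).2.pos
  have h5 : (Icc 1 x).filter (fun n => s ⊆ n.primeFactors) ⊆
      (Icc 1 x).filter (fun n => D ∣ n) := by
    intro n hn
    rw [mem_filter] at hn ⊢
    refine ⟨hn.1, ?_⟩
    have h6 : D ∣ ∏ p ∈ n.primeFactors, p := Finset.prod_dvd_prod_of_subset _ _ _ hn.2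
    exact h6.trans (Nat.prod_primeFactors_dvd n)
  have h7 : ((Icc 1 x).filter (fun n => D ∣ n)).card ≤ x / D := by
    have h8 : (Icc 1 x).filter (fun n => D ∣ n) ⊆ (Icc 1 (x / D)).image (fun m => D * m) := by
      intro n hn
      rw [mem_filter, mem_Icc] at hn
      obtain ⟨⟨h9, h10⟩, m, rfl⟩ := hn
      rw [mem_image]
      refine ⟨m, ?_, rfl⟩
      rw [mem_Icc]
      constructor
      · rcases Nat.eq_zero_or_pos m with h | h
        · subst h; simp at h9
        · exact h
      · rw [Nat.le_div_iff_mul_le hDp, mul_comm]; exact h10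
    refine (card_le_card h8).trans (card_image_le.trans ?_)
    simp
  have h11 : (((Icc 1 x).filter (fun n => s ⊆ n.primeFactors)).card : ℝ) ≤ ((x / D : ℕ) : ℝ) := by
    exact_mod_cast (card_le_card h5).trans h7
  refine h11.trans ?_
  have h12 : ((x / D : ℕ) : ℝ) ≤ (x : ℝ) / (D : ℝ) := Nat.cast_div_le
  have h13 : (D : ℝ) = ∏ p ∈ s, (p : ℝ) := by rw [hD]; push_cast; rfl
  rw [← h13]
  exact h12

/-- all but `C x / (log x) ^ ((1 + ε) log (1 + ε) - ε)` of the positive integers up to `x` have at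
most `(1 + ε) log log x` prime factors -/
theorem many_rare (ε : ℝ) (hε : 0 < ε) : ∃ C : ℝ, 0 < C ∧ ∀ x : ℕ, 2 ≤ x →
    (((Icc 1 x).filter (fun n : ℕ =>
      (1 + ε) * Real.log (Real.log x) < n.primeFactors.card)).card : ℝ) ≤
      C * x / Real.log x ^ ((1 + ε) * Real.log (1 + ε) - ε) := by
  obtain ⟨C0, hC0, hC⟩ := Pool.Agent.Helper559.mertens
  refine ⟨Real.exp (ε * C0), Real.exp_pos _, ?_⟩
  intro x hx
  have hx1 : (1 : ℝ) < x := by exact_mod_cast (by omega : 1 < x)
  have hL : 0 < Real.log x := Real.log_pos hx1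
  set LL := Real.log (Real.log x) with hLL
  set B := (Icc 1 x).filter (fun n : ℕ => (1 + ε) * LL < n.primeFactors.card) with hB
  have hlog : 0 < Real.log (1 + ε) := Real.log_pos (by linarith)
  have h1 : (B.card : ℝ) * Real.exp (Real.log (1 + ε) * ((1 + ε) * LL)) ≤
      ∑ n ∈ Icc 1 x, (1 + ε) ^ n.primeFactors.card := by
    calc (B.card : ℝ) * Real.exp (Real.log (1 + ε) * ((1 + ε) * LL))
        = ∑ _n ∈ B, Real.exp (Real.log (1 + ε) * ((1 + ε) * LL)) := by
          rw [Finset.sum_const, nsmul_eq_mul]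
      _ ≤ ∑ n ∈ B, (1 + ε) ^ n.primeFactors.card := by
          apply Finset.sum_le_sum
          intro n hn
          have h2 := (mem_filter.1 hn).2
          have h3 : (1 + ε) ^ n.primeFactors.card =
              Real.exp (Real.log (1 + ε) * n.primeFactors.card) := by
            rw [← Real.rpow_natCast, Real.rpow_def_of_pos (by linarith)]
          rw [h3]
          apply Real.exp_le_exp.2
          exact mul_le_mul_of_nonneg_left h2.le hlog.le
      _ ≤ _ := by
          apply Finset.sum_le_sum_of_subset_of_nonneg (Finset.filter_subset _ _)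
          intro i _ _
          positivity
  have h2 := sum_pow_omega ε hε.le x
  have h3 : ∏ p ∈ (Icc 1 x).filter Nat.Prime, (1 + ε * (1 / (p : ℝ))) ≤
      Real.exp (ε * (LL + C0)) := by
    calc ∏ p ∈ (Icc 1 x).filter Nat.Prime, (1 + ε * (1 / (p : ℝ)))
        ≤ ∏ p ∈ (Icc 1 x).filter Nat.Prime, Real.exp (ε * (1 / (p : ℝ))) := by
          apply Finset.prod_le_prod
          · intro i _; positivity
          · intro i _
            have := Real.add_one_le_exp (ε * (1 / (i : ℝ)))
            linarith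
      _ = Real.exp (ε * Pool.Agent.Helper559.S x) := by
          rw [← Real.exp_sum, ← Finset.mul_sum]; rfl
      _ ≤ _ := by
          apply Real.exp_le_exp.2
          apply mul_le_mul_of_nonneg_left _ hε.le
          have := (abs_le.1 (hC x hx)).2
          linarith
  have h4 : (B.card : ℝ) * Real.exp (Real.log (1 + ε) * ((1 + ε) * LL)) ≤
      x * Real.exp (ε * (LL + C0)) :=
    h1.trans (h2.trans (mul_le_mul_of_nonneg_left h3 (by positivity)))
  have h5 : (B.card : ℝ) ≤ x * Real.exp (ε * (LL + C0)) *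
      Real.exp (-(Real.log (1 + ε) * ((1 + ε) * LL))) := by
    rw [Real.exp_neg]
    rw [← div_eq_mul_inv, le_div_iff₀ (Real.exp_pos _)]
    exact h4
  refine h5.trans (le_of_eq ?_)
  rw [Real.rpow_def_of_pos hL, ← hLL, div_eq_mul_inv, ← Real.exp_neg]
  rw [mul_assoc, ← Real.exp_add, mul_comm (Real.exp (ε * C0)) (x : ℝ), mul_assoc, ← Real.exp_add]
  congr 2
  ring

end Pool.Agent.Q158.Cyc
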