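import Mathlib
import Pool.Agent.Y947.DP.Fin
import Pool.Agent.Q158.Cyc.Mean
import Pool.Agent.Q158.Cyc.Omega
set_option autoImplicit false

/-!
# Combinations of products of cyclotomic polynomials
-/

namespace Pool.Agent.Q158.Cyc
open Polynomial Real

/-- The length: the sum of the absolute values of the coefficients. -/
noncomputable def len (h : ℤ[X]) : ℝ := ∑ k ∈ h.support, |(h.coeff k : ℝ)|

theorem len_nonneg (h : ℤ[X]) : 0 ≤ len h := Finset.sum_nonneg fun _ _ => abs_nonneg _

theorem norm_aeval_le_len (h : ℤ[X]) (z : ℂ) (hz : ‖z‖ = 1) : ‖aeval z h‖ ≤ len h := by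
  rw [aeval_eq_sum_range' (Nat.lt_succ_self _), len]
  have h1 : ∑ k ∈ Finset.range (h.natDegree + 1), h.coeff k • z ^ k =
      ∑ k ∈ h.support, h.coeff k • z ^ k := by
    symm
    apply Finset.sum_subset
    · exact supp_subset_range (Nat.lt_succ_self _)
    · intro k _ hk
      rw [notMem_support_iff.1 hk, zero_smul]
  rw [h1]
  refine (norm_sum_le _ _).trans (Finset.sum_le_sum fun k _ => ?_)
  rw [zsmul_eq_mul, norm_mul, norm_pow, hz, one_pow, mul_one, Complex.norm_intCast]

/-- a nonzero integer polynomial has length at least one -/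
theorem one_le_len (h : ℤ[X]) (h0 : h ≠ 0) : 1 ≤ len h := by
  obtain ⟨k, hk⟩ := (Finset.nonempty_iff_ne_empty.2 (fun e => h0 (support_eq_empty.1 e)) :
    h.support.Nonempty)
  have h1 : (1 : ℝ) ≤ |(h.coeff k : ℝ)| := by
    have : (1 : ℤ) ≤ |h.coeff k| := Int.one_le_abs (mem_support_iff.1 hk)
    exact_mod_cast this
  exact h1.trans (Finset.single_le_sum (f := fun k => |(h.coeff k : ℝ)|)
    (fun _ _ => abs_nonneg _) hk)

/-- The product of the cyclotomic polynomials with the indices in `N`. -/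
noncomputable def cycProd (N : Multiset ℕ) : ℤ[X] := (N.map fun n => cyclotomic n ℤ).prod

theorem norm_cycProd_le (N : Multiset ℕ) (z : ℂ) :
    ‖aeval z (cycProd N)‖ ≤ exp ((N.map fun n => posLog ‖aeval z (cyclotomic n ℤ)‖).sum) := by
  unfold cycProd
  induction N using Multiset.induction_on with
  | empty => simp
  | cons n N ih =>
    rw [Multiset.map_cons, Multiset.prod_cons, Multiset.map_cons, Multiset.sum_cons, map_mul,
      norm_mul, Real.exp_add]
    apply mul_le_mul _ ih (norm_nonneg _) (exp_pos _).le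
    rcases eq_or_lt_of_le (norm_nonneg (aeval z (cyclotomic n ℤ))) with h | h
    · rw [← h]; exact (exp_pos _).le
    · calc ‖aeval z (cyclotomic n ℤ)‖ = exp (Real.log ‖aeval z (cyclotomic n ℤ)‖) :=
            (Real.exp_log h).symm
        _ ≤ _ := Real.exp_le_exp.2 (le_max_right _ _)

theorem posLog_comb {ι : Type*} (s : Finset ι) (h : ι → ℤ[X]) (N : ι → Multiset ℕ)
    (P : Multiset ℕ) (hN : ∀ i ∈ s, N i ≤ P) (hL : 1 ≤ ∑ i ∈ s, len (h i)) (z : ℂ)
    (hz : ‖z‖ = 1) :
    posLog ‖aeval z (∑ i ∈ s, h i * cycProd (N i))‖ ≤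
      Real.log (∑ i ∈ s, len (h i)) + (P.map fun n => posLog ‖aeval z (cyclotomic n ℤ)‖).sum := by
  set SS := (P.map fun n => posLog ‖aeval z (cyclotomic n ℤ)‖).sum with hSS
  have hpos : ∀ Q : Multiset ℕ, 0 ≤ (Q.map fun n => posLog ‖aeval z (cyclotomic n ℤ)‖).sum := by
    intro Q
    apply Multiset.sum_nonneg
    intro x hx
    obtain ⟨n, _, rfl⟩ := Multiset.mem_map.1 hx
    exact posLog_nonneg
  have h1 : ‖aeval z (∑ i ∈ s, h i * cycProd (N i))‖ ≤ (∑ i ∈ s, len (h i)) * exp SS := by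
    rw [map_sum, Finset.sum_mul]
    refine (norm_sum_le _ _).trans (Finset.sum_le_sum fun i hi => ?_)
    rw [map_mul, norm_mul]
    apply mul_le_mul (norm_aeval_le_len _ z hz) _ (norm_nonneg _) (len_nonneg _)
    refine (norm_cycProd_le (N i) z).trans (Real.exp_le_exp.2 ?_)
    obtain ⟨R, hR⟩ := Multiset.le_iff_exists_add.1 (hN i hi)
    rw [hSS, hR, Multiset.map_add, Multiset.sum_add]
    have := hpos R
    linarith
  have hl0 : 0 ≤ Real.log (∑ i ∈ s, len (h i)) := Real.log_nonneg hL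
  apply max_le
  · have := hpos P
    linarith
  · rcases eq_or_lt_of_le (norm_nonneg (aeval z (∑ i ∈ s, h i * cycProd (N i)))) with h2 | h2
    · rw [← h2, Real.log_zero]
      have := hpos P
      linarith
    · have h3 := Real.log_le_log h2 h1
      rw [Real.log_mul (by linarith) (exp_pos _).ne', Real.log_exp] at h3
      exact h3

theorem int_posLog (f : ℤ[X]) :
    CircleIntegrable (fun z : ℂ => posLog ‖aeval z f‖) 0 1 := by
  have : MeromorphicOn (fun z : ℂ => aeval z f) (Metric.sphere (0 : ℂ) |1|) := by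
    intro z _
    have h1 : (fun z : ℂ => aeval z f) = fun z : ℂ => (f.map (Int.castRingHom ℂ)).eval z := by
      funext w
      rw [aeval_def, eval₂_eq_eval_map]
      rfl
    rw [h1]
    exact ((f.map (Int.castRingHom ℂ)).differentiable.analyticAt z).meromorphicAt
  exact this.circleIntegrable_posLog_norm

theorem avg_multiset (P : Multiset ℕ) (hP : 0 ∉ P) :
    CircleIntegrable (fun z : ℂ => (P.map fun n => posLog ‖aeval z (cyclotomic n ℤ)‖).sum) 0 1 ∧
    circleAverage (fun z : ℂ => (P.map fun n => posLog ‖aeval z (cyclotomic n ℤ)‖).sum) 0 1 ≤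
      (P.map fun n => √(π ^ 2 / 6 * 2 ^ n.primeFactors.card)).sum := by
  induction P using Multiset.induction_on with
  | empty =>
    simp only [Multiset.map_zero, Multiset.sum_zero]
    refine ⟨circleIntegrable_const 0 0 1, ?_⟩
    rw [circleAverage_const]
  | cons n P ih =>
    have h0 : n ≠ 0 ∧ 0 ∉ P := by
      rw [Multiset.mem_cons, not_or] at hP
      exact ⟨fun h => hP.1 h.symm, hP.2⟩
    obtain ⟨h1, h2⟩ := ih h0.2
    simp only [Multiset.map_cons, Multiset.sum_cons]
    have h3 := int_posLog (cyclotomic n ℤ)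
    refine ⟨h3.add h1, ?_⟩
    rw [circleAverage_fun_add h3 h1]
    exact add_le_add (posLog_cyc n (Nat.pos_of_ne_zero h0.1)) h2

/-- The mean of `log⁺` of a combination of products of cyclotomic polynomials. -/
theorem mean_comb {ι : Type*} (s : Finset ι) (h : ι → ℤ[X]) (N : ι → Multiset ℕ)
    (P : Multiset ℕ) (hN : ∀ i ∈ s, N i ≤ P) (hP : 0 ∉ P) (hL : 1 ≤ ∑ i ∈ s, len (h i)) :
    circleAverage (fun z : ℂ => posLog ‖aeval z (∑ i ∈ s, h i * cycProd (N i))‖) 0 1 ≤
      Real.log (∑ i ∈ s, len (h i)) + (P.map fun n => √(π ^ 2 / 6 * 2 ^ n.primeFactors.card)).sum := by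
  obtain ⟨h1, h2⟩ := avg_multiset P hP
  have h3 : circleAverage (fun z : ℂ => posLog ‖aeval z (∑ i ∈ s, h i * cycProd (N i))‖) 0 1 ≤
      circleAverage (fun z : ℂ => Real.log (∑ i ∈ s, len (h i)) +
        (P.map fun n => posLog ‖aeval z (cyclotomic n ℤ)‖).sum) 0 1 := by
    apply circleAverage_mono (int_posLog _)
      ((circleIntegrable_const (Real.log (∑ i ∈ s, len (h i))) 0 1).add h1)
    intro z hz
    have hz' : ‖z‖ = 1 := by simpa using hz
    exact posLog_comb s h N P hN hL z hz'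
  rw [circleAverage_fun_add (circleIntegrable_const _ 0 1) h1, circleAverage_const] at h3
  linarith

theorem main : ∃ c : ℝ, 0 < c ∧ ∀ (ι : Type) (s : Finset ι) (h : ι → ℤ[X])
    (N : ι → Multiset ℕ) (P : Multiset ℕ), (∀ i ∈ s, N i ≤ P) → 0 ∉ P →
    Irreducible (∑ i ∈ s, h i * cycProd (N i)) →
    1 < ((∑ i ∈ s, h i * cycProd (N i)).map (Int.castRingHom ℂ)).mahlerMeasure →
    c / (1 + Real.log (∑ i ∈ s, len (h i)) + (P.map fun n => √(2 ^ n.primeFactors.card)).sum) ^ 3 ≤
      Real.log ((∑ i ∈ s, h i * cycProd (N i)).map (Int.castRingHom ℂ)).mahlerMeasure := by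
  obtain ⟨c, hc, H⟩ := Y947.DP.irr_case3
  refine ⟨c / 8, by positivity, ?_⟩
  intro ι s h N P hN hP hirr hM
  have h1 := H _ hirr hM
  -- the length is at least one
  have hL : 1 ≤ ∑ i ∈ s, len (h i) := by
    by_contra hlt
    push Not at hlt
    have h2 : ∀ i ∈ s, h i = 0 := by
      intro i hi
      by_contra hne
      have := (one_le_len (h i) hne).trans
        (Finset.single_le_sum (f := fun i => len (h i)) (fun _ _ => len_nonneg _) hi)
      linarith
    have h3 : ∑ i ∈ s, h i * cycProd (N i) = 0 := by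
      apply Finset.sum_eq_zero
      intro i hi
      rw [h2 i hi, zero_mul]
    exact hirr.ne_zero h3
  have h4 := mean_comb s h N P hN hP hL
  have hsq : (P.map fun n => √(π ^ 2 / 6 * 2 ^ n.primeFactors.card)).sum ≤
      2 * (P.map fun n => √(2 ^ n.primeFactors.card)).sum := by
    rw [← Multiset.sum_map_mul_left]
    apply Multiset.sum_map_le_sum_map
    intro n _
    have h5 : √(π ^ 2 / 6 * 2 ^ n.primeFactors.card) = √(π ^ 2 / 6) * √(2 ^ n.primeFactors.card) :=
      Real.sqrt_mul (by positivity) _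
    rw [h5]
    apply mul_le_mul_of_nonneg_right _ (Real.sqrt_nonneg _)
    rw [Real.sqrt_le_left (by norm_num)]
    have := Real.pi_lt_four
    have := Real.pi_pos
    nlinarith
  have hl0 : 0 ≤ Real.log (∑ i ∈ s, len (h i)) := Real.log_nonneg hL
  have hS0 : 0 ≤ (P.map fun n => √(2 ^ n.primeFactors.card)).sum := by
    apply Multiset.sum_nonneg
    intro x hx
    obtain ⟨n, _, rfl⟩ := Multiset.mem_map.1 hx
    exact Real.sqrt_nonneg _
  refine le_trans ?_ h1
  set f := ∑ i ∈ s, h i * cycProd (N i) with hf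
  have h6 : 1 + Y947.DP.mp f ≤ 2 * (1 + Real.log (∑ i ∈ s, len (h i)) +
      (P.map fun n => √(2 ^ n.primeFactors.card)).sum) := by
    have : Y947.DP.mp f ≤ _ := h4
    linarith
  have h7 : 0 < 1 + Y947.DP.mp f := by
    have := Y947.DP.mp_nonneg f
    linarith
  rw [div_div, div_le_div_iff_of_pos_left hc (by positivity) (by positivity)]
  calc (1 + Y947.DP.mp f) ^ 3 ≤ (2 * (1 + Real.log (∑ i ∈ s, len (h i)) +
      (P.map fun n => √(2 ^ n.primeFactors.card)).sum)) ^ 3 := pow_le_pow_left₀ h7.le h6 3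
    _ = _ := by ring

end Pool.Agent.Q158.Cyc
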